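import Pool.Agent.H41.RLH.Gen
import Pool.Agent.H41.HS.Fin

/-!
# The relative local Hjorth theorem: divisibility of the automorphism group relative to `N`
-/

set_option autoImplicit false

open Set Topology Filter Pool.Agent.TK

namespace Pool.Agent.H41.RLH

open Pool.Agent.H71.VK Pool.Agent.H71 Pool.Agent.H41.ST

variable {C : Type}

/-- A closed subgroup of the automorphism group which contains `N` maps continuously onto the
infinite symmetric group, killing `N`. -/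
def DivRel (M : St C) (N : Subgroup (Equiv.Perm ℕ)) : Prop :=
  ∃ H : Subgroup (Equiv.Perm ℕ), N ≤ H ∧ H ≤ AutG M ∧
    (∀ g : Equiv.Perm ℕ, (∀ E : Finset ℕ, ∃ h ∈ H, ∀ x ∈ E, h x = g x) → g ∈ H) ∧
    ∃ φ : H →* Equiv.Perm ℕ, Function.Surjective φ ∧
      (∀ n : ℕ, ∃ E : Finset ℕ, ∀ h h' : H,
        (∀ x ∈ E, (h : Equiv.Perm ℕ) x = (h' : Equiv.Perm ℕ) x) → φ h n = φ h' n) ∧
      ∀ h : H, (h : Equiv.Perm ℕ) ∈ N → φ h = 1

attribute [local instance] permTop in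
/-- combinatorial form of continuity -/
lemma exists_modulus (H : Subgroup (Equiv.Perm ℕ)) (ψ : H →* Equiv.Perm ℕ)
    (hc : ∀ n m, IsOpen {h : H | ψ h n = m}) (n : ℕ) :
    ∃ F : Finset ℕ, ∀ θ : H, (∀ i ∈ F, (θ : Equiv.Perm ℕ) i = i) → ψ θ n = n := by
  by_contra hcon
  push Not at hcon
  choose θ hθ1 hθ2 using fun k : ℕ => hcon (Finset.range k)
  have ht : Tendsto (fun k => ((θ k : H) : Equiv.Perm ℕ)) atTop (𝓝 1) := by
    refine tendsto_perm (fun a => ?_) (fun a => ?_)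
    · filter_upwards [eventually_gt_atTop a] with k hk
      exact hθ1 k a (Finset.mem_range.2 hk)
    · filter_upwards [eventually_gt_atTop a] with k hk
      rw [Equiv.symm_apply_eq]
      exact (hθ1 k a (Finset.mem_range.2 hk)).symm
  have ht' : Tendsto θ atTop (𝓝 (1 : H)) := by
    rw [tendsto_subtype_rng]
    exact ht
  have hev : ∀ᶠ k in atTop, ψ (θ k) n = n :=
    ht'.eventually ((hc n n).mem_nhds (by
      change ψ 1 n = n
      rw [map_one]
      rfl))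
  obtain ⟨k, hk⟩ := hev.exists
  exact hθ2 k hk

attribute [local instance] permTop in
theorem divRel_of_pdiv {M : St C} {N : Subgroup (Equiv.Perm ℕ)} (hN : N ≤ AutG M)
    (hnorm : ∀ h : Equiv.Perm ℕ, IsoH h M M → ∀ n ∈ N, h * n * h⁻¹ ∈ N) {ν : List ℕ → ℕ}
    {φ : Y C} (hF : FlatN N M ν φ) (hdiv : PDiv (AutY φ)) : DivRel M N := by
  classical
  obtain ⟨H', hH', hcl, ψ', hψ, hc⟩ := hdiv
  have hsurj : Function.Surjective ν := hF.surj
  -- the induced permutation is unique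
  have huniq : ∀ θ θ' : Equiv.Perm ℕ, (∀ l, θ (ν l) = θ' (ν l)) → θ = θ' := by
    intro θ θ' h
    ext i
    obtain ⟨l, rfl⟩ := hsurj i
    exact h l
  let H : Subgroup (Equiv.Perm ℕ) :=
    { carrier := {h | IsoH h M M ∧ ∃ θ : H', ∀ l : List ℕ,
        (θ : Equiv.Perm ℕ) (ν l) = ν (l.map h)}
      mul_mem' := by
        rintro p q ⟨hp, θ, h2⟩ ⟨hq, θ', h4⟩
        refine ⟨(AutG M).mul_mem hp hq, θ * θ', fun l => ?_⟩
        change (θ : Equiv.Perm ℕ) ((θ' : Equiv.Perm ℕ) (ν l)) = _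
        rw [h4, h2, List.map_map]
        rfl
      one_mem' := by
        refine ⟨(AutG M).one_mem, 1, fun l => ?_⟩
        change ν l = ν (l.map id)
        rw [List.map_id]
      inv_mem' := by
        rintro p ⟨hp, θ, h2⟩
        refine ⟨(AutG M).inv_mem hp, θ⁻¹, fun l => ?_⟩
        have h3 := h2 (l.map (p⁻¹ : Equiv.Perm ℕ))
        rw [(Pool.Agent.H94.VK.map_map_inv p l).1] at h3
        change (θ : Equiv.Perm ℕ).symm (ν l) = ν (l.map (p⁻¹ : Equiv.Perm ℕ))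
        rw [← h3]
        exact Equiv.symm_apply_apply _ _ }
  have hmem : ∀ h : Equiv.Perm ℕ, h ∈ H ↔ IsoH h M M ∧ ∃ θ : H', ∀ l : List ℕ,
      (θ : Equiv.Perm ℕ) (ν l) = ν (l.map h) := fun h => Iff.rfl
  choose θ hθ using fun h : H => ((hmem h).1 h.2).2
  have hθu : ∀ (h : H) (θ' : H'), (∀ l : List ℕ, (θ' : Equiv.Perm ℕ) (ν l) = ν (l.map h.1)) →
      θ h = θ' := by
    intro h θ' h'
    refine Subtype.ext (huniq _ _ fun l => ?_)
    rw [hθ, h']
  have hθ1 : θ 1 = 1 := by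
    refine hθu 1 1 fun l => ?_
    change ν l = ν (l.map id)
    rw [List.map_id]
  have hθm : ∀ h h' : H, θ (h * h') = θ h * θ h' := by
    intro h h'
    refine hθu _ _ fun l => ?_
    change ((θ h : H') : Equiv.Perm ℕ) (((θ h' : H') : Equiv.Perm ℕ) (ν l)) = _
    rw [hθ, hθ, List.map_map]
    rfl
  have hrel1 : ∀ n ∈ N, ∀ l : List ℕ, ν l = ν (l.map n) := by
    intro n hn l
    rw [hF.ker]
    exact ⟨n, hn, rfl⟩
  have hNH : N ≤ H := by
    intro n hn
    refine (hmem n).2 ⟨hN hn, 1, fun l => ?_⟩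
    exact hrel1 n hn l
  refine ⟨H, hNH, fun h hh => ((hmem h).1 hh).1, ?_, ?_⟩
  · intro g hg
    have hgI : IsoH g M M := Pool.Agent.H41.HS.closed_isoH M g fun E => by
      obtain ⟨h, hh, h'⟩ := hg E
      exact ⟨h, ((hmem h).1 hh).1, h'⟩
    obtain ⟨γ, -, hγ⟩ := fliN _ _ M M ν ν φ φ g hF hF hgI (relN_tr (hnorm g hgI))
      (relN_tr (hnorm g⁻¹ (Pool.Agent.H94.VK.isoH_inv hgI)))
    have hγH : γ ∈ (H' : Set (Equiv.Perm ℕ)) := by
      refine mem_of_isClosed hcl γ fun F => ?_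
      choose s hs using hsurj
      obtain ⟨h, hh, h'⟩ := hg (F.biUnion fun a => (s a).toFinset)
      obtain ⟨-, θ', hθ'⟩ := (hmem h).1 hh
      refine ⟨θ', θ'.2, fun a ha => ?_⟩
      have h1 : (s a).map h = (s a).map g := List.map_congr_left fun x hx =>
        h' x (Finset.mem_biUnion.2 ⟨a, ha, by simpa using hx⟩)
      calc (θ' : Equiv.Perm ℕ) a = (θ' : Equiv.Perm ℕ) (ν (s a)) := by rw [hs]
        _ = ν ((s a).map h) := hθ' _
        _ = γ (ν (s a)) := by rw [h1, hγ]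
        _ = γ a := by rw [hs]
    exact (hmem g).2 ⟨hgI, ⟨γ, hγH⟩, hγ⟩
  · refine ⟨⟨⟨fun h => ψ' (θ h), by rw [hθ1, map_one]⟩, fun h h' => by
      change ψ' (θ (h * h')) = ψ' (θ h) * ψ' (θ h')
      rw [hθm, map_mul]⟩, ?_, ?_, ?_⟩
    · intro σ
      obtain ⟨θ', hθ'⟩ := hψ σ
      obtain ⟨hR, hon⟩ := flcN _ _ M M ν ν φ φ (θ' : Equiv.Perm ℕ) hF hF (hH' θ'.2)
      obtain ⟨m, hm⟩ := hR.tot []
      obtain ⟨h, hh, -, h3⟩ := liftN hR hon [] m hm
      refine ⟨⟨h, (hmem h).2 ⟨hh, θ', h3⟩⟩, ?_⟩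
      change ψ' (θ _) = σ
      rw [hθu _ θ' h3, hθ']
    · intro n
      obtain ⟨F, hFm⟩ := exists_modulus H' ψ' hc n
      choose s hs using hsurj
      refine ⟨F.biUnion fun a => (s a).toFinset, fun h h' hhh => ?_⟩
      have h1 : ∀ a ∈ F, ((θ h : H') : Equiv.Perm ℕ) a = ((θ h' : H') : Equiv.Perm ℕ) a := by
        intro a ha
        have h2 : (s a).map h.1 = (s a).map h'.1 := List.map_congr_left fun x hx =>
          hhh x (Finset.mem_biUnion.2 ⟨a, ha, by simpa using hx⟩)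
        calc ((θ h : H') : Equiv.Perm ℕ) a = ((θ h : H') : Equiv.Perm ℕ) (ν (s a)) := by rw [hs]
          _ = ((θ h' : H') : Equiv.Perm ℕ) (ν (s a)) := by rw [hθ, hθ, h2]
          _ = _ := by rw [hs]
      have h3 := hFm ((θ h)⁻¹ * θ h') fun a ha => by
        change ((θ h : H') : Equiv.Perm ℕ).symm (((θ h' : H') : Equiv.Perm ℕ) a) = a
        rw [← h1 a ha, Equiv.symm_apply_apply]
      rw [map_mul, map_inv] at h3
      change (ψ' (θ h)).symm (ψ' (θ h') n) = n at h3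
      rw [Equiv.symm_apply_eq] at h3
      exact h3.symm
    · intro h hh
      change ψ' (θ h) = 1
      rw [hθu h 1 fun l => hrel1 _ hh l, map_one]

/-- **The relative local Hjorth theorem.** -/
theorem rlh [MeasurableSpace C] [StandardBorelSpace C] (q : (ℕ → ℕ) → St C)
    (hqm : Measurable q) (N : (ℕ → ℕ) → Subgroup (Equiv.Perm ℕ)) (hN : ∀ z, N z ≤ AutG (q z))
    (htr : ∀ z z' (h : Equiv.Perm ℕ), IsoH h (q z) (q z') → ∀ n ∈ N z, h * n * h⁻¹ ∈ N z')
    (hRel : ∀ l m, MeasurableSet {z | RelN (N z) l m}) :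
    (∃ T' : Set (St C), T'.Countable ∧ ∀ z, ∃ M ∈ T', Iso (q z) M) ∨
      (∃ F : (ℕ → Bool) → (ℕ → ℕ), Continuous F ∧ ∀ x x', x ≠ x' →
        ¬ Iso (q (F x)) (q (F x'))) ∨
      ¬ ∃ T' : Set (St C), T'.Countable ∧ ∀ z, DivRel (q z) (N z) → ∃ M ∈ T', Iso (q z) M :=
  genN q hqm N hN htr hRel (fun z => DivRel (q z) (N z)) fun z _ _ hF hdiv =>
    divRel_of_pdiv (hN z) (fun h hh => htr z z h hh) hF hdiv

end Pool.Agent.H41.RLH
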