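import Pool.Agent.H41.ST.Rel
import Pool.Agent.H71.VK.GEN

/-!
# The relative local Hjorth theorem: the orbit counting part

An arbitrary group `N z` of automorphisms of the structure `q z`, transported by isomorphisms and
with a Borel orbit relation on finite lists.
-/

set_option autoImplicit false

open Set Topology MeasureTheory Pool.Agent.TK

namespace Pool.Agent.H41.RLH

open Pool.Agent.H71.VK Pool.Agent.H71 Pool.Agent.H41.ST

variable {C : Type}

/-- isomorphic quotient structures come from isomorphic structures -/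
lemma iso_of_flatN {N N' : Subgroup (Equiv.Perm ℕ)} {M M' : St C} {ν ν' : List ℕ → ℕ}
    {φ φ' : Y C} {g : Equiv.Perm ℕ} (h1 : FlatN N M ν φ) (h2 : FlatN N' M' ν' φ')
    (hg : ∀ i j, φ' (g i) (g j) = φ i j) : Iso M M' := by
  obtain ⟨hR, hon⟩ := flcN _ _ M M' ν ν' φ φ' g h1 h2 hg
  obtain ⟨m, hm⟩ := hR.tot []
  obtain ⟨h, hh, -, -⟩ := liftN hR hon [] m hm
  exact ⟨h, by simp, hh.1, hh.2⟩

/-- transport of the orbit relation -/
lemma relN_tr {N N' : Subgroup (Equiv.Perm ℕ)} {h : Equiv.Perm ℕ}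
    (htr : ∀ n ∈ N, h * n * h⁻¹ ∈ N') (l m : List ℕ) (hlm : RelN N l m) :
    RelN N' (l.map h) (m.map h) := by
  obtain ⟨n, hn, rfl⟩ := hlm
  refine ⟨_, htr n hn, ?_⟩
  rw [List.map_map, List.map_map]
  refine List.map_congr_left fun x _ => ?_
  change h (n (h.symm (h x))) = h (n x)
  rw [Equiv.symm_apply_apply]

lemma iso_symm' {M N : St C} : Iso M N → Iso N M := by
  rintro ⟨h, -, h1, h2⟩
  refine ⟨h.symm, by simp, fun u v => ?_, fun l => ?_⟩
  · rw [h1]; simp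
  · rw [h2, List.map_map]; simp

lemma iso_trans' {M N L : St C} : Iso M N → Iso N L → Iso M L := by
  rintro ⟨h, -, h1, h2⟩ ⟨k, -, k1, k2⟩
  refine ⟨h.trans k, by simp, fun u v => ?_, fun l => ?_⟩
  · rw [h1, k1]; rfl
  · rw [h2, k2, List.map_map]; rfl

theorem genN [MeasurableSpace C] [StandardBorelSpace C] (q : (ℕ → ℕ) → St C)
    (hqm : Measurable q) (N : (ℕ → ℕ) → Subgroup (Equiv.Perm ℕ)) (hN : ∀ z, N z ≤ AutG (q z))
    (htr : ∀ z z' (h : Equiv.Perm ℕ), IsoH h (q z) (q z') → ∀ n ∈ N z, h * n * h⁻¹ ∈ N z')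
    (hRel : ∀ l m, MeasurableSet {z | RelN (N z) l m}) (P : (ℕ → ℕ) → Prop)
    (hP : ∀ z (ν : List ℕ → ℕ) (φ : Y C), FlatN (N z) (q z) ν φ → PDiv (AutY φ) → P z) :
    (∃ T' : Set (St C), T'.Countable ∧ ∀ z, ∃ M ∈ T', Iso (q z) M) ∨
      (∃ F : (ℕ → Bool) → (ℕ → ℕ), Continuous F ∧ ∀ x x', x ≠ x' →
        ¬ Iso (q (F x)) (q (F x'))) ∨
      ¬ ∃ T' : Set (St C), T'.Countable ∧ ∀ z, P z → ∃ M ∈ T', Iso (q z) M := by
  classical
  obtain ⟨ν, Φ, hΦ, hF⟩ := flxN (ℕ → ℕ) q N hqm hN hRel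
  -- isomorphism of the structures and of the quotients
  have key1 : ∀ z z' (g : Equiv.Perm ℕ), (∀ i j, Φ z' (g i) (g j) = Φ z i j) →
      Iso (q z) (q z') := fun z z' g hg => iso_of_flatN (hF z) (hF z') hg
  have key2 : ∀ z z', Iso (q z) (q z') →
      ∃ g : Equiv.Perm ℕ, ∀ i j, Φ z' (g i) (g j) = Φ z i j := by
    rintro z z' ⟨h, -, h1, h2⟩
    have hI : IsoH h (q z) (q z') := ⟨h1, h2⟩
    have hI' := Pool.Agent.H94.VK.isoH_inv hI
    obtain ⟨g, hg, -⟩ := fliN _ _ (q z) (q z') (ν z) (ν z') (Φ z) (Φ z') h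
      (hF z) (hF z') hI (relN_tr (htr z z' h hI)) (relN_tr (htr z' z h⁻¹ hI'))
    exact ⟨g, hg⟩
  let := permTop
  let := permMeas
  have := polishSpace_perm
  have := isTopologicalGroup_perm
  have := borelSpace_perm
  let := yAct C
  rcases Pool.Agent.H71.HV.localHjorth (Equiv.Perm ℕ) (Y C) (measurable_yAct C) Φ hΦ with
    ⟨c, hc⟩ | ⟨F, hF1, hF2⟩ | h3
  · left
    let good : ℕ → Prop := fun n => ∃ z, ∃ g : Equiv.Perm ℕ, g • Φ z = c n
    let zz : ℕ → (ℕ → ℕ) := fun n => if h : good n then h.choose else fun _ => 0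
    have hzz : ∀ n, good n → ∃ g : Equiv.Perm ℕ, g • Φ (zz n) = c n := by
      intro n hn
      have : zz n = hn.choose := dif_pos hn
      rw [this]
      exact hn.choose_spec
    refine ⟨range fun n => q (zz n), countable_range _, ?_⟩
    intro z
    obtain ⟨n, g, hg⟩ := hc z
    obtain ⟨g', hg'⟩ := hzz n ⟨z, g, hg⟩
    refine ⟨_, ⟨n, rfl⟩, ?_⟩
    have h1 : (g'⁻¹ * g) • Φ z = Φ (zz n) := by
      rw [mul_smul, hg, ← hg', inv_smul_smul]
    exact key1 z (zz n) _ ((yAct_smul _ _ _).1 h1)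
  · right
    left
    refine ⟨F, hF1, ?_⟩
    intro x x' hxx hiso
    obtain ⟨g, hg⟩ := key2 _ _ hiso
    exact hF2 x x' hxx g ((yAct_smul _ _ _).2 hg)
  · right
    right
    rintro ⟨T', hT', h4⟩
    apply h3
    let good : St C → Prop := fun N => ∃ z, Iso (q z) N
    let zz : St C → (ℕ → ℕ) := fun n => if h : good n then h.choose else fun _ => 0
    have hzz : ∀ n, good n → Iso (q (zz n)) n := by
      intro n hn
      have : zz n = hn.choose := dif_pos hn
      rw [this]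
      exact hn.choose_spec
    have hc : ((fun N => Φ (zz N)) '' T' ∪ {Φ fun _ => 0}).Countable :=
      (hT'.image _).union (countable_singleton _)
    obtain ⟨c, hc'⟩ := hc.exists_eq_range ⟨_, Or.inr rfl⟩
    refine ⟨c, fun z hz => ?_⟩
    have hstab : MulAction.stabilizer (Equiv.Perm ℕ) (Φ z) = AutY (Φ z) := by
      ext g
      rw [MulAction.mem_stabilizer_iff]
      exact yAct_smul g (Φ z) (Φ z)
    rw [hstab] at hz
    obtain ⟨N', hN', hiso⟩ := h4 z (hP z (ν z) (Φ z) (hF z) hz)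
    have h5 : Iso (q z) (q (zz N')) := iso_trans' hiso (iso_symm' (hzz N' ⟨z, hiso⟩))
    obtain ⟨g, hg⟩ := key2 _ _ h5
    have h6 : Φ (zz N') ∈ range c := by
      rw [← hc']
      exact Or.inl ⟨N', hN', rfl⟩
    obtain ⟨n, hn⟩ := h6
    refine ⟨n, g, ?_⟩
    rw [hn]
    exact (yAct_smul _ _ _).2 hg

end Pool.Agent.H41.RLH
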