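import Pool.Agent.H41.RLH.Div

/-!
# The relative local Hjorth theorem for structures given by labels of finite lists
-/

set_option autoImplicit false

open Set Topology Filter Pool.Agent.TK

namespace Pool.Agent.H41.RLH

open Pool.Agent.H71.VK Pool.Agent.H71 Pool.Agent.H41.ST

variable {C : Type}

/-- `h` is an isomorphism of `M` onto `M'` -/
def LIso (h : Equiv.Perm ℕ) (M M' : List ℕ → C) : Prop := ∀ l : List ℕ, M' (l.map h) = M l

/-- `M` and `M'` are isomorphic -/
def LIsom (M M' : List ℕ → C) : Prop := ∃ h : Equiv.Perm ℕ, LIso h M M'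

/-- countably many isomorphism types -/
def LCount (A : Set (List ℕ → C)) : Prop :=
  ∃ T : Set (List ℕ → C), T.Countable ∧ ∀ M ∈ A, ∃ M' ∈ T, LIsom M M'

/-- perfectly many isomorphism types -/
def LPerf [MeasurableSpace C] (A : Set (List ℕ → C)) : Prop :=
  ∃ F : (ℕ → Bool) → List ℕ → C, Measurable F ∧ (∀ u, F u ∈ A) ∧
    ∀ u v, u ≠ v → ¬ LIsom (F u) (F v)

/-- A closed subgroup of the automorphism group which contains `N` maps continuously onto the
infinite symmetric group, killing `N`. -/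
def LDiv (M : List ℕ → C) (N : Subgroup (Equiv.Perm ℕ)) : Prop :=
  ∃ H : Subgroup (Equiv.Perm ℕ), N ≤ H ∧ (∀ h ∈ H, LIso h M M) ∧
    (∀ g : Equiv.Perm ℕ, (∀ E : Finset ℕ, ∃ h ∈ H, ∀ x ∈ E, h x = g x) → g ∈ H) ∧
    ∃ φ : H →* Equiv.Perm ℕ, Function.Surjective φ ∧
      (∀ n : ℕ, ∃ E : Finset ℕ, ∀ h h' : H,
        (∀ x ∈ E, (h : Equiv.Perm ℕ) x = (h' : Equiv.Perm ℕ) x) → φ h n = φ h' n) ∧
      ∀ h : H, (h : Equiv.Perm ℕ) ∈ N → φ h = 1

/-- the structure without a graph -/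
def toSt (M : List ℕ → C) : St C := (fun _ _ => false, M)

lemma isoH_toSt {h : Equiv.Perm ℕ} {M M' : List ℕ → C} :
    IsoH h (toSt M) (toSt M') ↔ LIso h M M' :=
  ⟨fun H l => (H.2 l).symm, fun H => ⟨fun _ _ => rfl, fun l => (H l).symm⟩⟩

lemma iso_toSt {M M' : List ℕ → C} : Iso (toSt M) (toSt M') ↔ LIsom M M' := by
  constructor
  · rintro ⟨h, -, -, h2⟩
    exact ⟨h, fun l => (h2 l).symm⟩
  · rintro ⟨h, h2⟩
    exact ⟨h, by simp, fun _ _ => rfl, fun l => (h2 l).symm⟩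

/-- **The relative local Hjorth theorem.** -/
theorem rlh_lists [MeasurableSpace C] [StandardBorelSpace C] (A : Set (List ℕ → C))
    (hA : A = ∅ ∨ ∃ f : (ℕ → ℕ) → List ℕ → C, Measurable f ∧ range f = A)
    (N : (List ℕ → C) → Subgroup (Equiv.Perm ℕ)) (hN : ∀ M ∈ A, ∀ n ∈ N M, LIso n M M)
    (htr : ∀ M ∈ A, ∀ M' ∈ A, ∀ h : Equiv.Perm ℕ, LIso h M M' →
      ∀ n ∈ N M, h * n * h⁻¹ ∈ N M')
    (hB : ∀ l m : List ℕ, ∃ B : Set (List ℕ → C), MeasurableSet B ∧
      ∀ M ∈ A, M ∈ B ↔ ∃ n ∈ N M, l.map n = m) :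
    LCount A ∨ LPerf A ∨ ¬ LCount {M ∈ A | LDiv M (N M)} := by
  classical
  rcases hA with rfl | ⟨f, hf, rfl⟩
  · exact Or.inl ⟨∅, countable_empty, fun x hx => hx.elim⟩
  have hfm : ∀ z, f z ∈ range f := fun z => ⟨z, rfl⟩
  have hq : Measurable fun z => toSt (f z) := measurable_const.prodMk hf
  rcases rlh (fun z => toSt (f z)) hq (fun z => N (f z))
    (fun z n hn => isoH_toSt.2 (hN _ (hfm z) n hn))
    (fun z z' h hh n hn => htr _ (hfm z) _ (hfm z') h (isoH_toSt.1 hh) n hn)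
    (fun l m => by
      obtain ⟨B, hB1, hB2⟩ := hB l m
      have h1 : {z | RelN (N (f z)) l m} = f ⁻¹' B := by
        ext z
        exact (hB2 _ (hfm z)).symm
      rw [h1]
      exact hf hB1) with ⟨T, hT, h1⟩ | ⟨F, hF1, hF2⟩ | h3
  · left
    let g : St C → List ℕ → C := fun M => M.2
    refine ⟨g '' T, hT.image g, ?_⟩
    rintro _ ⟨z, rfl⟩
    obtain ⟨M, hM, h, -, -, h2⟩ := h1 z
    exact ⟨_, ⟨M, hM, rfl⟩, h, fun l => (h2 l).symm⟩
  · right
    left
    exact ⟨fun u => f (F u), hf.comp hF1.measurable, fun u => hfm _,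
      fun u v huv h => hF2 u v huv (iso_toSt.2 h)⟩
  · right
    right
    rintro ⟨T, hT, h1⟩
    refine h3 ⟨toSt '' T, hT.image _, fun z hz => ?_⟩
    obtain ⟨H, k1, k2, k3⟩ := hz
    obtain ⟨M', hM', h2⟩ := h1 (f z) ⟨hfm z, H, k1, fun h hh => isoH_toSt.1 (k2 hh), k3⟩
    exact ⟨_, ⟨M', hM', rfl⟩, iso_toSt.2 h2⟩

/-- the automorphisms which move only finitely many points -/
def LFin (M : List ℕ → C) : Subgroup (Equiv.Perm ℕ) where
  carrier := {h | LIso h M M ∧ {x | h x ≠ x}.Finite}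
  mul_mem' := by
    rintro a b ⟨ha, ha'⟩ ⟨hb, hb'⟩
    refine ⟨fun l => ?_, (ha'.union hb').subset fun x hx => ?_⟩
    · have h1 := ha (l.map b)
      rw [List.map_map, hb l] at h1
      exact h1
    · by_contra hcon
      simp only [mem_union, mem_ofPred_eq, not_or, not_not] at hcon
      apply hx
      change a (b x) = x
      rw [hcon.2, hcon.1]
  one_mem' := ⟨fun l => by simp, by simp⟩
  inv_mem' := by
    rintro a ⟨ha, ha'⟩
    refine ⟨fun l => ?_, ha'.subset fun x hx h => hx ?_⟩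
    · have h1 := ha (l.map (a⁻¹ : Equiv.Perm ℕ))
      rw [(Pool.Agent.H94.VK.map_map_inv a l).1] at h1
      exact h1.symm
    · change a.symm x = x
      rw [Equiv.symm_apply_eq, h]

lemma countable_finitary : {n : Equiv.Perm ℕ | {x | n x ≠ x}.Finite}.Countable := by
  classical
  let e : {n : Equiv.Perm ℕ | {x | n x ≠ x}.Finite} → (ℕ →₀ ℤ) := fun n =>
    Finsupp.ofSupportFinite (fun x => ((n : Equiv.Perm ℕ) x : ℤ) - x)
      (n.2.subset fun x hx => by
        simp only [Function.mem_support, ne_eq, sub_eq_zero, Nat.cast_inj] at hx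
        exact hx)
  have he : Function.Injective e := by
    intro n m h
    apply Subtype.ext
    ext x
    have h1 := DFunLike.congr_fun h x
    simp only [e, Finsupp.ofSupportFinite_coe] at h1
    omega
  exact countable_coe_iff.1 he.countable

lemma measurable_fin [MeasurableSpace C] [StandardBorelSpace C] (l m : List ℕ) :
    MeasurableSet {M : List ℕ → C | ∃ n ∈ LFin M, l.map n = m} := by
  have h1 : {M : List ℕ → C | ∃ n ∈ LFin M, l.map n = m} =
      ⋃ n ∈ {n : Equiv.Perm ℕ | {x | n x ≠ x}.Finite},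
        {M : List ℕ → C | LIso n M M ∧ l.map n = m} := by
    ext M
    simp only [mem_ofPred_eq, mem_iUnion, exists_prop]
    constructor
    · rintro ⟨n, ⟨h1, h2⟩, h3⟩
      exact ⟨n, h2, h1, h3⟩
    · rintro ⟨n, h2, h1, h3⟩
      exact ⟨n, ⟨h1, h2⟩, h3⟩
  rw [h1]
  refine MeasurableSet.biUnion countable_finitary fun n _ => ?_
  by_cases h : l.map n = m
  · have h2 : {M : List ℕ → C | LIso n M M ∧ l.map n = m} =
        ⋂ k : List ℕ, {M : List ℕ → C | M (k.map n) = M k} := by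
      ext M
      simp only [mem_ofPred_eq, mem_iInter, h, and_true]
      exact Iff.rfl
    rw [h2]
    exact MeasurableSet.iInter fun k =>
      measurableSet_eq_fun (measurable_pi_apply _) (measurable_pi_apply _)
  · have h2 : {M : List ℕ → C | LIso n M M ∧ l.map n = m} = ∅ := by
      ext M
      simp only [mem_ofPred_eq, h, and_false, mem_empty_iff_false]
    rw [h2]
    exact MeasurableSet.empty

lemma lfin_tr {M M' : List ℕ → C} {h : Equiv.Perm ℕ} (hh : LIso h M M') :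
    ∀ n ∈ LFin M, h * n * h⁻¹ ∈ LFin M' := by
  rintro n ⟨h1, h2⟩
  refine ⟨fun l => ?_, (h2.image h).subset fun x hx => ?_⟩
  · have e1 : l.map (h * n * h⁻¹ : Equiv.Perm ℕ) =
        ((l.map (h⁻¹ : Equiv.Perm ℕ)).map n).map h := by
      rw [List.map_map, List.map_map]
      rfl
    rw [e1, hh, h1, ← hh (l.map (h⁻¹ : Equiv.Perm ℕ)), (Pool.Agent.H94.VK.map_map_inv h l).1]
  · refine ⟨h.symm x, fun h3 => hx ?_, Equiv.apply_symm_apply _ _⟩
    change h (n (h.symm x)) = x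
    rw [h3, Equiv.apply_symm_apply]

/-- the case of the finitary automorphisms, without any hypothesis -/
theorem rlh_fin [MeasurableSpace C] [StandardBorelSpace C] (A : Set (List ℕ → C))
    (hA : A = ∅ ∨ ∃ f : (ℕ → ℕ) → List ℕ → C, Measurable f ∧ range f = A) :
    LCount A ∨ LPerf A ∨ ¬ LCount {M ∈ A | LDiv M (LFin M)} :=
  rlh_lists A hA LFin (fun _ _ _ hn => hn.1) (fun _ _ _ _ _ hh => lfin_tr hh)
    fun l m => ⟨_, measurable_fin l m, fun _ _ => Iff.rfl⟩

end Pool.Agent.H41.RLH
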